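import Pool.Agent.Helper76.FT.GoalsS

/-! Packet FT-V: the velocities of the leaves. -/

set_option autoImplicit false

namespace Pool.Agent.Helper26.FT

open Set Filter Topology Pool.Agent.Helper37.FTM Pool.Agent.Helper76.FT

/-- straight line interpolation between the identity and the leaf map -/
noncomputable def hh (F : ℝ × ℝ → ℝ × ℝ) (U : ℝ → ℝ → ℝ) (Y t x : ℝ) : ℝ :=
  (1 - t) * x + t * ff F U Y x

section

variable {F : ℝ × ℝ → ℝ × ℝ} {U : ℝ → ℝ → ℝ} (h : Fol0 F U)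
include h

theorem hh_strictMono (Y : ℝ) {t : ℝ} (ht : t ∈ Icc (0:ℝ) 1) : StrictMono (hh F U Y t) := by
  intro x x' hx
  have h1 := h.ff_strictMono Y hx
  obtain ⟨t0, t1⟩ := ht
  unfold hh
  rcases eq_or_lt_of_le t0 with h0 | h0
  · rw [← h0]; linarith
  · have h2 : t * ff F U Y x < t * ff F U Y x' := mul_lt_mul_of_pos_left h1 h0
    have h3 : (1 - t) * x ≤ (1 - t) * x' := mul_le_mul_of_nonneg_left hx.le (by linarith)
    linarith

theorem hh_cont (x : ℝ) : Continuous fun z : ℝ × ℝ × ℝ => hh F U z.1 z.2.2 x := by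
  unfold hh
  have h1 : Continuous fun z : ℝ × ℝ × ℝ => ff F U z.1 x :=
    h.continuous_ff.comp (continuous_fst.prodMk continuous_const)
  have h2 : Continuous fun z : ℝ × ℝ × ℝ => z.2.2 := continuous_snd.comp continuous_snd
  exact ((continuous_const.sub h2).mul continuous_const).add (h2.mul h1)

theorem hh_cont' (Y t : ℝ) : Continuous (hh F U Y t) := by
  unfold hh
  exact (continuous_const.mul continuous_id).add (continuous_const.mul (h.continuous_ff' Y))

theorem hh_add_one (Y t x : ℝ) : hh F U Y t (x + 1) = hh F U Y t x + 1 := by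
  unfold hh
  rw [h.ff_add_one]
  ring

theorem hh_add_nat (Y t x : ℝ) (n : ℕ) : hh F U Y t (x + n) = hh F U Y t x + n := by
  induction n with
  | zero => simp
  | succ n ih =>
    push_cast
    rw [← add_assoc, hh_add_one h, ih]
    ring

theorem hh_surj (Y t q : ℝ) : ∃ x, hh F U Y t x = q := by
  have h1 : ∃ a, hh F U Y t a ≤ q := by
    obtain ⟨n, hn⟩ := exists_nat_ge (hh F U Y t 0 - q)
    refine ⟨0 - n, ?_⟩
    have h2 := hh_add_nat h Y t (0 - n) n
    rw [sub_add_cancel] at h2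
    linarith
  have h2 : ∃ b, q ≤ hh F U Y t b := by
    obtain ⟨n, hn⟩ := exists_nat_ge (q - hh F U Y t 0)
    refine ⟨0 + n, ?_⟩
    rw [hh_add_nat h Y t 0 n]
    linarith
  exact mem_range_of_exists_le_of_exists_ge (hh_cont' h Y t) h1 h2

end

/-- the inverse -/
noncomputable def XX {F : ℝ × ℝ → ℝ × ℝ} {U : ℝ → ℝ → ℝ} (h : Fol0 F U) (Y q t : ℝ) : ℝ :=
  Classical.choose (hh_surj h Y t q)

theorem XX_spec {F : ℝ × ℝ → ℝ × ℝ} {U : ℝ → ℝ → ℝ} (h : Fol0 F U) (Y q t : ℝ) :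
    hh F U Y t (XX h Y q t) = q := Classical.choose_spec (hh_surj h Y t q)

theorem XX_eq {F : ℝ × ℝ → ℝ × ℝ} {U : ℝ → ℝ → ℝ} (h : Fol0 F U) {Y q t x : ℝ}
    (ht : t ∈ Icc (0:ℝ) 1) (hx : hh F U Y t x = q) : XX h Y q t = x :=
  (hh_strictMono h Y ht).injective ((XX_spec h Y q t).trans hx.symm)

theorem XX_cont {F : ℝ × ℝ → ℝ × ℝ} {U : ℝ → ℝ → ℝ} (h : Fol0 F U) :
    ContinuousOn (fun z : ℝ × ℝ × ℝ => XX h z.1 z.2.1 z.2.2)
      (univ ×ˢ (univ ×ˢ Icc (0:ℝ) 1)) := by
  intro z0 hz0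
  have ht0 : z0.2.2 ∈ Icc (0:ℝ) 1 := hz0.2.2
  rw [ContinuousWithinAt, Metric.tendsto_nhds]
  intro ε hε
  set x0 := XX h z0.1 z0.2.1 z0.2.2 with hx0
  have hspec : hh F U z0.1 z0.2.2 x0 = z0.2.1 := XX_spec h _ _ _
  have hq : Continuous fun z : ℝ × ℝ × ℝ => z.2.1 := continuous_fst.comp continuous_snd
  have e1 : ∀ᶠ z in 𝓝 z0, hh F U z.1 z.2.2 (x0 - ε) < z.2.1 := by
    refine (hh_cont h (x0 - ε)).continuousAt.eventually_lt hq.continuousAt ?_
    have := hh_strictMono h z0.1 ht0 (show x0 - ε < x0 by linarith)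
    rw [hspec] at this
    exact this
  have e2 : ∀ᶠ z in 𝓝 z0, z.2.1 < hh F U z.1 z.2.2 (x0 + ε) := by
    refine hq.continuousAt.eventually_lt (hh_cont h (x0 + ε)).continuousAt ?_
    have := hh_strictMono h z0.1 ht0 (show x0 < x0 + ε by linarith)
    rw [hspec] at this
    exact this
  filter_upwards [mem_nhdsWithin_of_mem_nhds e1, mem_nhdsWithin_of_mem_nhds e2,
    self_mem_nhdsWithin] with z h1 h2 hz
  have ht : z.2.2 ∈ Icc (0:ℝ) 1 := hz.2.2
  have hs : hh F U z.1 z.2.2 (XX h z.1 z.2.1 z.2.2) = z.2.1 := XX_spec h _ _ _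
  rw [← hs] at h1 h2
  have k1 := (hh_strictMono h z.1 ht).lt_iff_lt.1 h1
  have k2 := (hh_strictMono h z.1 ht).lt_iff_lt.1 h2
  rw [Real.dist_eq, abs_lt]
  constructor <;> linarith

theorem ft_v : GV := by
  intro F U h
  have hsp : ∀ Y q t : ℝ, XX h Y q t + t * (ff F U Y (XX h Y q t) - XX h Y q t) = q := by
    intro Y q t
    have := XX_spec h Y q t
    unfold hh at this
    linarith
  refine ⟨fun Y q t => ff F U Y (XX h Y q t) - XX h Y q t, ?_, ?_, ?_, ?_, ?_, ?_⟩
  · intro Y x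
    have h1 : XX h Y x 0 = x := XX_eq h ⟨le_refl _, zero_le_one⟩ (by unfold hh; ring)
    show ff F U Y (XX h Y x 0) - XX h Y x 0 = _
    rw [h1]
  · intro Y x
    have h1 : XX h Y (ff F U Y x) 1 = x := XX_eq h ⟨zero_le_one, le_refl _⟩ (by unfold hh; ring)
    show ff F U Y (XX h Y (ff F U Y x) 1) - XX h Y (ff F U Y x) 1 = _
    rw [h1]
  · have hX := XX_cont h
    have h1 : ContinuousOn (fun z : ℝ × ℝ × ℝ => ff F U z.1 (XX h z.1 z.2.1 z.2.2))
        (univ ×ˢ (univ ×ˢ Icc (0:ℝ) 1)) :=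
      h.continuous_ff.comp_continuousOn (continuous_fst.continuousOn.prodMk hX)
    exact h1.sub hX
  · intro Y q t ht
    have h1 : XX h Y (q + 1) t = XX h Y q t + 1 :=
      XX_eq h ht (by rw [hh_add_one h, XX_spec h])
    show ff F U Y (XX h Y (q + 1) t) - XX h Y (q + 1) t = ff F U Y (XX h Y q t) - XX h Y q t
    rw [h1, h.ff_add_one]
    ring
  · intro Y Y' hY q t ht
    show ff F U Y (XX h Y q t) - XX h Y q t < ff F U Y' (XX h Y' q t) - XX h Y' q t
    by_contra hcon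
    push Not at hcon
    have s1 := hsp Y q t
    have s2 := hsp Y' q t
    set x := XX h Y q t with hx
    set x' := XX h Y' q t with hx'
    set v := ff F U Y x - x with hv
    set v' := ff F U Y' x' - x' with hv'
    have k1 : t * v' ≤ t * v := mul_le_mul_of_nonneg_left hcon ht.1
    have k2 : (1 - t) * v' ≤ (1 - t) * v :=
      mul_le_mul_of_nonneg_left hcon (by linarith [ht.2])
    have k3 : x ≤ x' := by linarith
    have k4 : ff F U Y' x ≤ ff F U Y' x' := (h.ff_strictMono Y').monotone k3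
    have k5 := h.ff_mono_left hY x
    have k6 : ff F U Y' x' = x' + v' := by rw [hv']; ring
    have k7 : ff F U Y x = x + v := by rw [hv]; ring
    have k8 : x' + v' = q + (1 - t) * v' := by linarith
    have k9 : x + v = q + (1 - t) * v := by linarith
    linarith
  · intro Y q s hs t ht
    show ff F U Y (XX h Y (q + (s - t) * (ff F U Y (XX h Y q t) - XX h Y q t)) s) -
      XX h Y (q + (s - t) * (ff F U Y (XX h Y q t) - XX h Y q t)) s =
      ff F U Y (XX h Y q t) - XX h Y q t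
    have h1 : XX h Y (q + (s - t) * (ff F U Y (XX h Y q t) - XX h Y q t)) s = XX h Y q t := by
      refine XX_eq h hs ?_
      have := hsp Y q t
      unfold hh
      linear_combination this
    rw [h1]

end Pool.Agent.Helper26.FT
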